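import Pool.Agent.W292.RG.All

/-!
MP_b47bfb_co: Hadwiger's conjecture (the full clique minor `K_{k+1}` for graphs that are not
`k`-colourable) for very dense graphs whose complement is nearly regular, in particular for all
regular graphs on `n` vertices in which every vertex has at most `(n / 140) ^ (2 / 3)`
non-neighbours.
-/

set_option autoImplicit false

namespace Pool.Agent.Results.MP_b47bfb_co.NearRegularDense

/-- `K_k` is a minor of `G`: there are `k` pairwise disjoint vertex sets, each inducing a connected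
subgraph, any two of them joined by an edge of `G`. -/
def HasCliqueMinor {V : Type} (G : SimpleGraph V) (k : ℕ) : Prop :=
  ∃ f : Fin k → Set V,
    (∀ i, (G.induce (f i)).Connected) ∧
    (∀ i j, i ≠ j → Disjoint (f i) (f j)) ∧
    (∀ i j, i ≠ j → ∃ u ∈ f i, ∃ v ∈ f j, G.Adj u v)

/-- The set of non-neighbours of `x` (without `x` itself). -/
def NonNbr {V : Type} (G : SimpleGraph V) (x : V) : Set V := {y | x ≠ y ∧ ¬ G.Adj x y}

/-- (1) Let `m` be the number of vertices of `G` which have at least one non-neighbour, and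
suppose that each of them has at least `d` and at most `D` non-neighbours, where `1 ≤ d` and
`19600 * D ^ 5 ≤ d ^ 2 * m ^ 2`.  If `G` is not `k`-colourable then `K_{k+1}` is a minor of `G`.
(2) In particular this holds for every graph on `n` vertices in which every vertex has exactly
`D` non-neighbours, `19600 * D ^ 3 ≤ n ^ 2`. -/
theorem result :
    (∀ (V : Type) [Fintype V] (G : SimpleGraph V) (d D : ℕ), 1 ≤ d →
      (∀ x : V, (NonNbr G x).Nonempty → d ≤ (NonNbr G x).ncard ∧ (NonNbr G x).ncard ≤ D) →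
      19600 * D ^ 5 ≤ d ^ 2 * {x : V | (NonNbr G x).Nonempty}.ncard ^ 2 →
      ∀ k : ℕ, ¬ G.Colorable k → HasCliqueMinor G (k + 1)) ∧
    (∀ (V : Type) [Fintype V] (G : SimpleGraph V) (D : ℕ),
      (∀ x : V, (NonNbr G x).ncard = D) →
      19600 * D ^ 3 ≤ Fintype.card V ^ 2 →
      ∀ k : ℕ, ¬ G.Colorable k → HasCliqueMinor G (k + 1)) := by
  have key : ∀ (V : Type) [Fintype V] (G : SimpleGraph V) (d D : ℕ), 1 ≤ d →
      (∀ x : V, (NonNbr G x).Nonempty → d ≤ (NonNbr G x).ncard ∧ (NonNbr G x).ncard ≤ D) →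
      19600 * D ^ 5 ≤ d ^ 2 * {x : V | (NonNbr G x).Nonempty}.ncard ^ 2 →
      ∀ k : ℕ, ¬ G.Colorable k → HasCliqueMinor G (k + 1) := by
    intro V _ G d D hd hdeg hn k hk
    have hnd : ∀ x, Pool.Agent.W292.RG.ndeg G x = (NonNbr G x).ncard := by
      intro x
      have : {y | Gᶜ.Adj x y} = NonNbr G x := by
        ext y
        exact SimpleGraph.compl_adj G x y
      unfold Pool.Agent.W292.RG.ndeg
      rw [this]
    refine Pool.Agent.W292.RG.final V G d D hd ?_ hn k hk
    intro x hx
    rw [hnd]
    exact hdeg x hx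
  refine ⟨key, ?_⟩
  intro V _ G D hD hn k hk
  rcases Nat.eq_zero_or_pos D with h0 | hpos
  · subst h0
    refine key V G 1 0 le_rfl ?_ (by simp) k hk
    rintro x ⟨y, hy⟩
    exfalso
    have h1 := hD x
    rw [Set.ncard_eq_zero (Set.toFinite _)] at h1
    rw [h1] at hy
    exact hy
  · have hall : {x : V | (NonNbr G x).Nonempty} = Set.univ := by
      ext x
      simp only [Set.mem_univ, iff_true]
      show (NonNbr G x).Nonempty
      rw [← Set.ncard_pos (Set.toFinite _), hD x]
      exact hpos
    refine key V G D D hpos (fun x _ => by rw [hD x]; exact ⟨le_rfl, le_rfl⟩) ?_ k hk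
    rw [hall, Set.ncard_univ, Nat.card_eq_fintype_card]
    calc 19600 * D ^ 5 = D ^ 2 * (19600 * D ^ 3) := by ring
      _ ≤ D ^ 2 * Fintype.card V ^ 2 := Nat.mul_le_mul_left _ hn

end Pool.Agent.Results.MP_b47bfb_co.NearRegularDense
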